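import Pool.Agent.Run7.h987.BL.Core
import Pool.Agent.Run7.h987.BL.Semi
import Pool.Agent.Run7.h987.RT.Final

/-!
# Embedding `ℤ^k`-systems in band-limited shifts over arbitrary spectra (MP_fc1499_an, Q1)

Every `ℤ^k`-system with the marker property and `mdim X < |Ω|` embeds in the shift on `B_1(Ω)`,
for every compact semialgebraic `Ω ⊂ ℝ^k` (and for every set `Ω` with `mdim X < |int Ω|`).
-/

set_option autoImplicit false

open MeasureTheory Set
open scoped FourierTransform SchwartzMap ENNReal Topology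

noncomputable section

namespace Pool.Agent.Results.MP_fc1499_an.MeanDimEmbedding

/-- `ℝ^k` -/
abbrev Rk (k : ℕ) := EuclideanSpace ℝ (Fin k)

/-- an integer vector as a point of `ℝ^k` -/
def ivec {k : ℕ} (n : Fin k → ℤ) : Rk k := WithLp.toLp 2 fun i => (n i : ℝ)

/-- The Fourier transform of `f` (as a tempered distribution, `⟨f̂, u⟩ = ⟨f, û⟩`) vanishes off
`Ω`: it annihilates every Schwartz function whose (closed) support is disjoint from `Ω`. -/
def SpectrumIn {k : ℕ} (Ω : Set (Rk k)) (f : Rk k → ℂ) : Prop :=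
  ∀ u : 𝓢(Rk k, ℂ), Disjoint (tsupport u) Ω → ∫ t, f t * 𝓕 u t = 0

/-- `B_1(Ω)`; the topology of `C(ℝ^k, ℂ)` is that of uniform convergence on compact sets -/
def Band {k : ℕ} (Ω : Set (Rk k)) : Set C(Rk k, ℂ) :=
  {f | (∀ t, ‖f t‖ ≤ 1) ∧ SpectrumIn Ω f}

/-- `X` embeds in the shift on `B_1(Ω)`, `(T^n f)(t) = f(t+n)` -/
def Embeds (k : ℕ) (X : Type*) [TopologicalSpace X] [AddAction (Fin k → ℤ) X]
    (Ω : Set (Rk k)) : Prop :=
  ∃ F : X → C(Rk k, ℂ), Continuous F ∧ Function.Injective F ∧ (∀ x, F x ∈ Band Ω) ∧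
    ∀ (n : Fin k → ℤ) (x : X) (t : Rk k), F (n +ᵥ x) t = F x (t + ivec n)

/-- the marker property -/
def MarkerProperty (k : ℕ) (X : Type*) [TopologicalSpace X] [AddAction (Fin k → ℤ) X] : Prop :=
  ∀ N : ℕ, 0 < N → ∃ U : Set X, IsOpen U ∧
    (∀ n : Fin k → ℤ, n ≠ 0 → (∀ i, |n i| < (N : ℤ)) → U ∩ (fun x => n +ᵥ x) '' U = ∅) ∧
    (⋃ n : Fin k → ℤ, (fun x => n +ᵥ x) '' U) = Set.univ

/-- semialgebraic sets: finite unions of sets given by polynomial equations `p = 0` and strict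
inequalities `q > 0` -/
def IsSemialgebraic {k : ℕ} (Ω : Set (Rk k)) : Prop :=
  ∃ A : List (List (MvPolynomial (Fin k) ℝ) × List (MvPolynomial (Fin k) ℝ)), ∀ x : Rk k,
    x ∈ Ω ↔ ∃ c ∈ A, (∀ p ∈ c.1, MvPolynomial.eval (fun i => x i) p = 0) ∧
      ∀ q ∈ c.2, 0 < MvPolynomial.eval (fun i => x i) q

/-- `d_N(x,y) = max_{n ∈ [0,N)^k} d(T^n x, T^n y)` -/
def dN (k : ℕ) {X : Type*} [MetricSpace X] [AddAction (Fin k → ℤ) X] (N : ℕ) (x y : X) : ℝ :=
  ⨆ n : Fin k → Fin N, dist ((fun i => ((n i : ℕ) : ℤ)) +ᵥ x) ((fun i => ((n i : ℕ) : ℤ)) +ᵥ y)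

/-- `Widim_ε(X, d_N) ≤ r`: there are a finite simplicial complex `P` of dimension at most `r` and
a continuous map `X → P` all of whose fibres have `d_N`-diameter `< ε` -/
def WidimLE (k : ℕ) (X : Type*) [MetricSpace X] [AddAction (Fin k → ℤ) X] (ε : ℝ) (N r : ℕ) :
    Prop :=
  ∃ (l : ℕ) (P : Geometry.SimplicialComplex ℝ (Rk l)) (g : X → Rk l), P.faces.Finite ∧
    (∀ s ∈ P.faces, s.card ≤ r + 1) ∧ Continuous g ∧ (∀ x, g x ∈ P.space) ∧
    ∀ x y, g x = g y → dN k N x y < ε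

/-- mean dimension -/
def mdim (k : ℕ) (X : Type*) [MetricSpace X] [AddAction (Fin k → ℤ) X] : ℝ≥0∞ :=
  ⨆ ε : ℝ, ⨆ _ : 0 < ε, Filter.limsup
    (fun N : ℕ => (⨅ r : ℕ, ⨅ _ : WidimLE k X ε N r, (r : ℝ≥0∞)) / (N : ℝ≥0∞) ^ k) Filter.atTop

universe u

/-- transfer between spectra -/
theorem transfer {k : ℕ} {X : Type u} [MetricSpace X] [AddAction (Fin k → ℤ) X]
    (hT : ∀ n : Fin k → ℤ, Continuous fun x : X => n +ᵥ x) (hX : MarkerProperty k X)
    {K Ω : Set (Rk k)} (hK : IsCompact K) (hvol : volume K < volume (interior Ω))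
    (hemb : Embeds k X K) : Embeds k X Ω := by
  obtain ⟨F, hFc, hFi, hFb, hFe⟩ := hemb
  obtain ⟨G, hGc, hGi, hGb, hGs, hGe⟩ := Pool.Agent.Run7.h987.BL.core hT
    (by
      intro N
      obtain ⟨U, hU, h1, h2⟩ := hX (N + 1) N.succ_pos
      refine ⟨U, hU, fun n hn hn2 => ?_, fun x => ?_⟩
      · rw [Set.disjoint_iff_inter_eq_empty]
        refine h1 n hn fun i => (hn2 i).trans ?_
        push_cast
        linarith
      · have hx : x ∈ ⋃ n : Fin k → ℤ, (fun x => n +ᵥ x) '' U := h2 ▸ mem_univ x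
        obtain ⟨n, y, hy, hyx⟩ := mem_iUnion.mp hx
        refine ⟨-n, ?_⟩
        have h3 : n +ᵥ y = x := hyx
        rw [← h3, neg_vadd_vadd]
        exact hy)
    hK isOpen_interior hvol F hFc hFi (fun x t => (hFb x).1 t) (fun x => (hFb x).2) hFe
  refine ⟨G, hGc, hGi, fun x => ⟨hGb x, fun u hu => ?_⟩, hGe⟩
  exact hGs x u (hu.mono_right interior_subset)

/-- embedding over some compact set of small volume -/
theorem exists_compact {k : ℕ} (hk : 0 < k) {X : Type u} [MetricSpace X] [CompactSpace X]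
    [AddAction (Fin k → ℤ) X] (hT : ∀ n : Fin k → ℤ, Continuous fun x : X => n +ᵥ x)
    (hX : MarkerProperty k X) {V : ℝ≥0∞} (hV : mdim k X < V) :
    ∃ K : Set (Rk k), IsCompact K ∧ volume K < V ∧ Embeds k X K := by
  obtain ⟨K, hK, hKV, F, hF, hFi⟩ := Pool.Agent.Run7.h987.RT.main k X hk hT hX V hV
  exact ⟨K, hK, hKV, F, hF.cont, hFi, fun x => ⟨hF.bdd x, hF.spec x⟩, hF.equi⟩

/-- **Q1.**  Let `k ≥ 1`, let `X` be a compact metric space with a continuous action of `ℤ^k` that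
has the marker property, and let `Ω` be a semialgebraic set with `mdim X < |Ω|`, or any set with
`mdim X < |int Ω|`.  Then `X` embeds in the shift on `B_1(Ω)`. -/
theorem result (k : ℕ) (hk : 0 < k) (X : Type*) [MetricSpace X] [CompactSpace X]
    [AddAction (Fin k → ℤ) X] (hT : ∀ n : Fin k → ℤ, Continuous fun x : X => n +ᵥ x)
    (hX : MarkerProperty k X) (Ω : Set (Rk k))
    (hΩ : (IsSemialgebraic Ω ∧ mdim k X < volume Ω) ∨ mdim k X < volume (interior Ω)) :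
    Embeds k X Ω := by
  rcases hΩ with ⟨⟨A, hA⟩, h⟩ | h
  · obtain ⟨K, hK, hKV, hemb⟩ := exists_compact hk hT hX h
    exact transfer hT hX hK (hKV.trans_le (Pool.Agent.Run7.h987.BL.semi_vol A hA)) hemb
  · obtain ⟨K, hK, hKV, hemb⟩ := exists_compact hk hT hX h
    exact transfer hT hX hK hKV hemb

end Pool.Agent.Results.MP_fc1499_an.MeanDimEmbedding
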