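import Pool.Agent.Run7.h987.BL.Core
import Pool.Agent.Run7.h987.BL.Semi

/-!
# Transfer of embeddings between band-limited shifts (MP_fc1499_an)

If a `ℤ^k`-system with the marker property embeds in the shift on `B_1(K)`, `K` compact, then it
embeds in the shift on `B_1(Ω)` for every compact semialgebraic `Ω` with `|K| < |Ω|` (and for every
set `Ω` with `|K| < |int Ω|`), whatever the shapes of `K` and `Ω`.  The corollary
`of_rectangles` spells out how Q1 for all compact semialgebraic sets follows from its known case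
of axis-parallel rectangles.
-/

set_option autoImplicit false

open MeasureTheory Set
open scoped FourierTransform SchwartzMap ENNReal Topology

noncomputable section

namespace Pool.Agent.Results.MP_fc1499_an.SpectralTransfer

/-- `ℝ^k` -/
abbrev Rk (k : ℕ) := EuclideanSpace ℝ (Fin k)

/-- an integer vector as a point of `ℝ^k` -/
def ivec {k : ℕ} (n : Fin k → ℤ) : Rk k := WithLp.toLp 2 fun i => (n i : ℝ)

/-- The Fourier transform of `f` (as a tempered distribution, `⟨f̂, u⟩ = ⟨f, û⟩`) vanishes off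
`Ω`: it annihilates every Schwartz function whose (closed) support is disjoint from `Ω`. -/
def SpectrumIn {k : ℕ} (Ω : Set (Rk k)) (f : Rk k → ℂ) : Prop :=
  ∀ u : 𝓢(Rk k, ℂ), Disjoint (tsupport u) Ω → ∫ t, f t * 𝓕 u t = 0

/-- `B_1(Ω)`; the topology of `C(ℝ^k, ℂ)` is that of uniform convergence on compact sets -/
def Band {k : ℕ} (Ω : Set (Rk k)) : Set C(Rk k, ℂ) :=
  {f | (∀ t, ‖f t‖ ≤ 1) ∧ SpectrumIn Ω f}

/-- `X` embeds in the shift on `B_1(Ω)`, `(T^n f)(t) = f(t+n)` -/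
def Embeds (k : ℕ) (X : Type*) [TopologicalSpace X] [AddAction (Fin k → ℤ) X]
    (Ω : Set (Rk k)) : Prop :=
  ∃ F : X → C(Rk k, ℂ), Continuous F ∧ Function.Injective F ∧ (∀ x, F x ∈ Band Ω) ∧
    ∀ (n : Fin k → ℤ) (x : X) (t : Rk k), F (n +ᵥ x) t = F x (t + ivec n)

/-- the marker property -/
def MarkerProperty (k : ℕ) (X : Type*) [TopologicalSpace X] [AddAction (Fin k → ℤ) X] : Prop :=
  ∀ N : ℕ, 0 < N → ∃ U : Set X, IsOpen U ∧
    (∀ n : Fin k → ℤ, n ≠ 0 → (∀ i, |n i| < (N : ℤ)) → U ∩ (fun x => n +ᵥ x) '' U = ∅) ∧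
    (⋃ n : Fin k → ℤ, (fun x => n +ᵥ x) '' U) = Set.univ

/-- semialgebraic sets: finite unions of sets given by polynomial equations `p = 0` and strict
inequalities `q > 0` -/
def IsSemialgebraic {k : ℕ} (Ω : Set (Rk k)) : Prop :=
  ∃ A : List (List (MvPolynomial (Fin k) ℝ) × List (MvPolynomial (Fin k) ℝ)), ∀ x : Rk k,
    x ∈ Ω ↔ ∃ c ∈ A, (∀ p ∈ c.1, MvPolynomial.eval (fun i => x i) p = 0) ∧
      ∀ q ∈ c.2, 0 < MvPolynomial.eval (fun i => x i) q

theorem transfer {k : ℕ} {X : Type*} [MetricSpace X] [AddAction (Fin k → ℤ) X]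
    (hT : ∀ n : Fin k → ℤ, Continuous fun x : X => n +ᵥ x) (hX : MarkerProperty k X)
    {K Ω : Set (Rk k)} (hK : IsCompact K) (hvol : volume K < volume (interior Ω))
    (hemb : Embeds k X K) : Embeds k X Ω := by
  obtain ⟨F, hFc, hFi, hFb, hFe⟩ := hemb
  obtain ⟨G, hGc, hGi, hGb, hGs, hGe⟩ := Pool.Agent.Run7.h987.BL.core hT
    (by
      intro N
      obtain ⟨U, hU, h1, h2⟩ := hX (N + 1) N.succ_pos
      refine ⟨U, hU, fun n hn hn2 => ?_, fun x => ?_⟩
      · rw [Set.disjoint_iff_inter_eq_empty]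
        refine h1 n hn fun i => (hn2 i).trans ?_
        push_cast
        linarith
      · have hx : x ∈ ⋃ n : Fin k → ℤ, (fun x => n +ᵥ x) '' U := h2 ▸ mem_univ x
        obtain ⟨n, y, hy, hyx⟩ := mem_iUnion.mp hx
        refine ⟨-n, ?_⟩
        have h3 : n +ᵥ y = x := hyx
        rw [← h3, neg_vadd_vadd]
        exact hy)
    hK isOpen_interior hvol F hFc hFi (fun x t => (hFb x).1 t) (fun x => (hFb x).2) hFe
  refine ⟨G, hGc, hGi, fun x => ⟨hGb x, fun u hu => ?_⟩, hGe⟩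
  exact hGs x u (hu.mono_right interior_subset)

/-- **Transfer theorem.**  Let `X` be a compact metric space with a continuous action of `ℤ^k`,
`k ≥ 1`, with the marker property, and suppose that `X` embeds in the shift on `B_1(K)` for some
compact `K`.  Then `X` embeds in the shift on `B_1(Ω)` for every semialgebraic `Ω` with
`|K| < |Ω|`, and for every `Ω` with `|K| < |int Ω|`. -/
theorem result (k : ℕ) (_hk : 0 < k) (X : Type*) [MetricSpace X] [CompactSpace X]
    [AddAction (Fin k → ℤ) X] (hT : ∀ n : Fin k → ℤ, Continuous fun x : X => n +ᵥ x)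
    (hX : MarkerProperty k X) (K : Set (Rk k)) (hK : IsCompact K) (hemb : Embeds k X K)
    (Ω : Set (Rk k))
    (hΩ : (IsSemialgebraic Ω ∧ volume K < volume Ω) ∨ volume K < volume (interior Ω)) :
    Embeds k X Ω := by
  rcases hΩ with ⟨⟨A, hA⟩, h⟩ | h
  · exact transfer hT hX hK (h.trans_le (Pool.Agent.Run7.h987.BL.semi_vol A hA)) hemb
  · exact transfer hT hX hK h hemb

/-! ## How Q1 follows from its rectangular case -/

/-- the box `[a_1,b_1] × ⋯ × [a_k,b_k]` -/
def box {k : ℕ} (a b : Fin k → ℝ) : Set (Rk k) := {x | ∀ i, a i ≤ x i ∧ x i ≤ b i}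

lemma isCompact_box {k : ℕ} (a b : Fin k → ℝ) : IsCompact (box a b) := by
  have h1 := (isCompact_Icc (a := a) (b := b)).image (PiLp.continuous_toLp 2 (fun _ : Fin k => ℝ))
  have h2 : box a b = (WithLp.toLp 2 : (Fin k → ℝ) → Rk k) '' Set.Icc a b := by
    ext x
    constructor
    · intro h
      exact ⟨WithLp.ofLp x, ⟨fun i => (h i).1, fun i => (h i).2⟩, rfl⟩
    · rintro ⟨y, hy, rfl⟩
      exact fun i => ⟨hy.1 i, hy.2 i⟩
  rw [h2]
  exact h1

lemma volume_box {k : ℕ} (a b : Fin k → ℝ) :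
    volume (box a b) = ∏ i, ENNReal.ofReal (b i - a i) := by
  have h1 := (PiLp.volume_preserving_toLp (Fin k)).measure_preimage
    (isCompact_box a b).measurableSet.nullMeasurableSet
  rw [← h1, ← Real.volume_Icc_pi]
  congr 1
  ext x
  constructor
  · intro h
    exact ⟨fun i => (h i).1, fun i => (h i).2⟩
  · intro h i
    exact ⟨h.1 i, h.2 i⟩

/-- `d_N(x,y) = max_{n ∈ [0,N)^k} d(T^n x, T^n y)` -/
def dN (k : ℕ) {X : Type*} [MetricSpace X] [AddAction (Fin k → ℤ) X] (N : ℕ) (x y : X) : ℝ :=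
  ⨆ n : Fin k → Fin N, dist ((fun i => ((n i : ℕ) : ℤ)) +ᵥ x) ((fun i => ((n i : ℕ) : ℤ)) +ᵥ y)

/-- `Widim_ε(X, d_N) ≤ r`: there are a finite simplicial complex `P` of dimension at most `r` and
a continuous map `X → P` all of whose fibres have `d_N`-diameter `< ε` -/
def WidimLE (k : ℕ) (X : Type*) [MetricSpace X] [AddAction (Fin k → ℤ) X] (ε : ℝ) (N r : ℕ) :
    Prop :=
  ∃ (l : ℕ) (P : Geometry.SimplicialComplex ℝ (Rk l)) (g : X → Rk l), P.faces.Finite ∧
    (∀ s ∈ P.faces, s.card ≤ r + 1) ∧ Continuous g ∧ (∀ x, g x ∈ P.space) ∧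
    ∀ x y, g x = g y → dN k N x y < ε

/-- mean dimension -/
def mdim (k : ℕ) (X : Type*) [MetricSpace X] [AddAction (Fin k → ℤ) X] : ℝ≥0∞ :=
  ⨆ ε : ℝ, ⨆ _ : 0 < ε, Filter.limsup
    (fun N : ℕ => (⨅ r : ℕ, ⨅ _ : WidimLE k X ε N r, (r : ℝ≥0∞)) / (N : ℝ≥0∞) ^ k) Filter.atTop

/-- Let `X` have the marker property.  If `X` embeds in `B_1(R)` for every axis-parallel box `R`
with `mdim X < |R|` (a theorem, listed as known in the problem), then it embeds in `B_1(Ω)` for
every compact semialgebraic `Ω` with `mdim X < |Ω|`, which is Q1. -/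
theorem of_rectangles (k : ℕ) (hk : 0 < k) (X : Type*) [MetricSpace X] [CompactSpace X]
    [AddAction (Fin k → ℤ) X] (hT : ∀ n : Fin k → ℤ, Continuous fun x : X => n +ᵥ x)
    (hX : MarkerProperty k X)
    (hbox : ∀ a b : Fin k → ℝ, (∀ i, a i < b i) → mdim k X < volume (box a b) →
      Embeds k X (box a b))
    (Ω : Set (Rk k)) (_hΩ : IsCompact Ω) (hsemi : IsSemialgebraic Ω)
    (hm : mdim k X < volume Ω) : Embeds k X Ω := by
  obtain ⟨r, hr1, hr2⟩ := ENNReal.lt_iff_exists_nnreal_btwn.mp hm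
  have hr0 : 0 < (r : ℝ) := by
    have : (0 : ℝ≥0∞) < r := (zero_le).trans_lt hr1
    exact_mod_cast this
  set L : ℝ := (r : ℝ) ^ ((k : ℝ)⁻¹) with hL
  have hL0 : 0 < L := Real.rpow_pos_of_pos hr0 _
  have hLk : L ^ k = r := Real.rpow_inv_natCast_pow hr0.le hk.ne'
  have hvb : volume (box (fun _ : Fin k => (0 : ℝ)) fun _ => L) = r := by
    rw [volume_box]
    simp only [sub_zero, Finset.prod_const, Finset.card_univ, Fintype.card_fin]
    rw [← ENNReal.ofReal_pow hL0.le, hLk, ENNReal.ofReal_coe_nnreal]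
  refine result k hk X hT hX _ (isCompact_box (fun _ : Fin k => (0 : ℝ)) fun _ => L)
    (hbox _ _ (fun _ => hL0) ?_) Ω (Or.inl ⟨hsemi, ?_⟩)
  · rw [hvb]
    exact hr1
  · rw [hvb]
    exact hr2

end Pool.Agent.Results.MP_fc1499_an.SpectralTransfer
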